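import Mathlib
import Pool.Agent.H55.Mark

namespace Pool.Agent.Results.MP_953c35_gt.MarkovDiffer

open Pool.Agent.H55.Mark Set

/-- A Tychonoff space, an ideal base `𝒜` and a family `ℬ` such that Two has a winning Markov
strategy in `G_1(N[𝒜], ¬ Γ(X, ℬ))` but not in `G_1(N[𝒜], ¬ O(X, ℬ))`. -/
theorem result : ∃ (X : Type) (_ : TopologicalSpace X) (𝒜 ℬ : Set (Set X)), T35Space X ∧
    𝒜.Nonempty ∧ (∀ A₁ ∈ 𝒜, ∀ A₂ ∈ 𝒜, ∃ A₃ ∈ 𝒜, A₁ ∪ A₂ ⊆ A₃) ∧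
    (∀ A ∈ 𝒜, ∃ U, IsOpen U ∧ A ⊆ U ∧ U ≠ univ) ∧
    MarkovWin 𝒜 (GC ℬ) ∧ ¬ MarkovWin 𝒜 (OC ℬ) := by
  refine ⟨X, inferInstance, range AA, range fun x : X => {x}, inferInstance, range_nonempty _,
    ?_, ?_, win_gamma, not_win_open⟩
  · rintro _ ⟨a, rfl⟩ _ ⟨b, rfl⟩
    refine ⟨_, ⟨max a b, rfl⟩, ?_⟩
    rintro K (h | h) i hi
    · exact (h i hi).trans_le (le_max_left _ _)
    · exact (h i hi).trans_le (le_max_right _ _)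
  · rintro _ ⟨a, rfl⟩
    exact ⟨UU a, UU_open a, AA_sub a, UU_ne a⟩

end Pool.Agent.Results.MP_953c35_gt.MarkovDiffer
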